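import Mathlib

/-!
# A subfield of the reals with a unique (archimedean) ordering and a definable non-Borel set

Let `α i` be a transcendence basis of the reals over the rationals.  For a set `S` of indices let
`K` be a subfield of the reals maximal among those containing all `α i ^ 3` and the `α i` with
`i ∈ S` but no `α i` with `i ∉ S`.  Then `K` is closed under square roots of positive elements, so
it has exactly one field ordering, and `α i ^ 3` is a cube in `K` if and only if `i ∈ S`.  Since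
there are more sets `S` than Borel sets, the set of cubes is not Borel for some `S`.
-/

namespace Pool.Agent.Results.MP_37207a_lc.NonBorelCubes

open Cardinal Polynomial

/-! ## Transcendental elements are not in the field generated by their cube -/

theorem not_mem_adjoin_cube {L : Type} [Field L] [Algebra L ℝ] {t : ℝ} (ht : Transcendental L t) :
    t ∉ IntermediateField.adjoin L {t ^ 3} := by
  intro h
  rw [IntermediateField.mem_adjoin_simple_iff] at h
  obtain ⟨r, s, hrs⟩ := h
  have ht0 : t ≠ 0 := by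
    rintro rfl
    exact ht isAlgebraic_zero
  have hs0 : aeval (t ^ 3) s ≠ 0 := by
    intro h0
    rw [h0, div_zero] at hrs
    exact ht0 hrs
  have h1 : aeval t (X * expand L 3 s - expand L 3 r) = 0 := by
    rw [map_sub, map_mul, aeval_X, expand_aeval, expand_aeval, hrs]
    rw [hrs] at hs0
    have : aeval ((aeval (t ^ 3) r / aeval (t ^ 3) s) ^ 3) s ≠ 0 := by
      rw [← hrs] at hs0 ⊢
      exact hs0
    rw [← hrs]
    rw [← hrs] at hs0
    field_simp
    rw [eq_div_iff hs0] at hrs
    linarith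
  have h2 : X * expand L 3 s - expand L 3 r = 0 := by
    by_contra hne
    exact ht ⟨_, hne, h1⟩
  have h3 : s = 0 := by
    ext n
    have := congrArg (fun p : L[X] => p.coeff (n * 3 + 1)) h2
    simp only [coeff_sub, coeff_X_mul, coeff_expand_mul (R := L) (p := 3) (by norm_num),
      coeff_zero] at this
    rw [coeff_expand (by norm_num)] at this
    rw [if_neg (by omega)] at this
    simpa using this
  exact hs0 (by rw [h3, map_zero])

/-! ## The base field -/

/-- The subfield generated by all `α i ^ 3` and the `α i` with `i ∈ S`. -/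
noncomputable def baseField {ι : Type} (α : ι → ℝ) (S : Set ι) : Subfield ℝ :=
  Subfield.closure (Set.range (fun i => α i ^ 3) ∪ α '' S)

open scoped IntermediateField.algebraAdjoinAdjoin in
theorem not_mem_baseField {ι : Type} {α : ι → ℝ} (hα : AlgebraicIndependent ℚ α) {S : Set ι}
    {i : ι} (hi : i ∉ S) : α i ∉ baseField α S := by
  intro h
  set L : IntermediateField ℚ ℝ := IntermediateField.adjoin ℚ (α '' {i}ᶜ) with hL
  have ht : Transcendental (Algebra.adjoin ℚ (α '' {i}ᶜ)) (α i) :=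
    hα.transcendental_adjoin (by simp)
  have ht' : Transcendental L (α i) := by
    intro halg
    exact ht ((IsFractionRing.isAlgebraic_iff (Algebra.adjoin ℚ (α '' {i}ᶜ)) L ℝ).2 halg)
  refine not_mem_adjoin_cube ht' ?_
  have hle : baseField α S ≤ (IntermediateField.adjoin L {α i ^ 3}).toSubfield := by
    rw [baseField, Subfield.closure_le]
    rintro x (⟨j, rfl⟩ | ⟨j, hj, rfl⟩)
    · by_cases hji : j = i
      · subst hji
        exact IntermediateField.mem_adjoin_simple_self L (α j ^ 3)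
      · have : α j ∈ L := IntermediateField.subset_adjoin _ _ ⟨j, hji, rfl⟩
        exact (IntermediateField.adjoin L {α i ^ 3}).algebraMap_mem ⟨α j ^ 3, pow_mem this 3⟩
    · have hji : j ≠ i := by
        rintro rfl
        exact hi hj
      have : α j ∈ L := IntermediateField.subset_adjoin _ _ ⟨j, hji, rfl⟩
      exact (IntermediateField.adjoin L {α i ^ 3}).algebraMap_mem ⟨α j, this⟩
  exact hle h

/-! ## Adjoining a square root -/

/-- The subfield `K(√d)`. -/
noncomputable def adjoinSqrt (K : Subfield ℝ) (d : ℝ) (hd : d ∈ K) (hpos : 0 < d)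
    (hs : √d ∉ K) : Subfield ℝ where
  carrier := {x | ∃ u ∈ K, ∃ v ∈ K, x = u + v * √d}
  mul_mem' := by
    rintro _ _ ⟨u, hu, v, hv, rfl⟩ ⟨u', hu', v', hv', rfl⟩
    have h := Real.mul_self_sqrt hpos.le
    refine ⟨u * u' + v * v' * d, by exact K.add_mem (K.mul_mem hu hu') (K.mul_mem (K.mul_mem hv hv') hd),
      u * v' + v * u', K.add_mem (K.mul_mem hu hv') (K.mul_mem hv hu'), ?_⟩
    linear_combination v * v' * h
  one_mem' := ⟨1, K.one_mem, 0, K.zero_mem, by simp⟩
  add_mem' := by
    rintro _ _ ⟨u, hu, v, hv, rfl⟩ ⟨u', hu', v', hv', rfl⟩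
    exact ⟨u + u', K.add_mem hu hu', v + v', K.add_mem hv hv', by ring⟩
  zero_mem' := ⟨0, K.zero_mem, 0, K.zero_mem, by simp⟩
  neg_mem' := by
    rintro _ ⟨u, hu, v, hv, rfl⟩
    exact ⟨-u, K.neg_mem hu, -v, K.neg_mem hv, by ring⟩
  inv_mem' := by
    rintro _ ⟨u, hu, v, hv, rfl⟩
    have h := Real.mul_self_sqrt hpos.le
    by_cases h0 : u = 0 ∧ v = 0
    · exact ⟨0, K.zero_mem, 0, K.zero_mem, by simp [h0.1, h0.2]⟩
    · have hu1 : ∀ w ∈ K, w * √d ∈ K → w = 0 := by
        intro w hw hwd
        by_contra hw0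
        apply hs
        have := K.mul_mem (K.inv_mem hw) hwd
        rwa [inv_mul_cancel_left₀ hw0] at this
      have hA : u + v * √d ≠ 0 := by
        intro hA
        have h1 : v * √d = -u := by linarith
        have hv0 : v = 0 := hu1 v hv (by rw [h1]; exact K.neg_mem hu)
        exact h0 ⟨by rw [hv0] at hA; simpa using hA, hv0⟩
      have hB : u - v * √d ≠ 0 := by
        intro hA
        have h1 : v * √d = u := by linarith
        have hv0 : v = 0 := hu1 v hv (by rw [h1]; exact hu)
        exact h0 ⟨by rw [hv0] at hA; simpa using hA, hv0⟩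
      have hC : u * u - v * v * d ≠ 0 := by
        have : u * u - v * v * d = (u + v * √d) * (u - v * √d) := by
          linear_combination v * v * h
        rw [this]
        exact mul_ne_zero hA hB
      have hCK : u * u - v * v * d ∈ K :=
        K.sub_mem (K.mul_mem hu hu) (K.mul_mem (K.mul_mem hv hv) hd)
      refine ⟨u * (u * u - v * v * d)⁻¹, K.mul_mem hu (K.inv_mem hCK),
        -v * (u * u - v * v * d)⁻¹, K.mul_mem (K.neg_mem hv) (K.inv_mem hCK), ?_⟩
      have hw := mul_inv_cancel₀ hC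
      refine inv_eq_of_mul_eq_one_right ?_
      linear_combination hw - v * v * (u * u - v * v * d)⁻¹ * h

theorem mem_of_cube_mem {K : Subfield ℝ} {d : ℝ} (hd : d ∈ K) (hpos : 0 < d) (hs : √d ∉ K)
    {y : ℝ} (hy : y ∈ adjoinSqrt K d hd hpos hs) (hy3 : y ^ 3 ∈ K) : y ∈ K := by
  obtain ⟨u, hu, v, hv, rfl⟩ := hy
  have h := Real.mul_self_sqrt hpos.le
  have hexp : (u + v * √d) ^ 3 = (u ^ 3 + 3 * u * v ^ 2 * d) + (3 * u ^ 2 * v + v ^ 3 * d) * √d := by
    linear_combination (3 * u * v ^ 2 + v ^ 3 * √d) * h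
  have h3 : (3 : ℝ) ∈ K := by exact_mod_cast natCast_mem K 3
  have hAK : u ^ 3 + 3 * u * v ^ 2 * d ∈ K :=
    K.add_mem (K.pow_mem hu 3) (K.mul_mem (K.mul_mem (K.mul_mem h3 hu) (K.pow_mem hv 2)) hd)
  have hBK : 3 * u ^ 2 * v + v ^ 3 * d ∈ K :=
    K.add_mem (K.mul_mem (K.mul_mem h3 (K.pow_mem hu 2)) hv) (K.mul_mem (K.pow_mem hv 3) hd)
  have hB0 : 3 * u ^ 2 * v + v ^ 3 * d = 0 := by
    by_contra hne
    apply hs
    have h5 : (3 * u ^ 2 * v + v ^ 3 * d) * √d ∈ K := by
      have : (3 * u ^ 2 * v + v ^ 3 * d) * √d = (u + v * √d) ^ 3 - (u ^ 3 + 3 * u * v ^ 2 * d) := by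
        rw [hexp]; ring
      rw [this]
      exact K.sub_mem hy3 hAK
    have := K.mul_mem (K.inv_mem hBK) h5
    rwa [inv_mul_cancel_left₀ hne] at this
  have hv0 : v = 0 := by
    by_contra hv0
    have hv2 : 0 < v ^ 2 := by positivity
    have h6 : v * (3 * u ^ 2 + v ^ 2 * d) = 0 := by linear_combination hB0
    rcases mul_eq_zero.1 h6 with h7 | h7
    · exact hv0 h7
    · have : 0 < 3 * u ^ 2 + v ^ 2 * d := by positivity
      linarith
  simpa [hv0] using hu

/-! ## The field `K` -/

theorem exists_field {ι : Type} {α : ι → ℝ} (hα : AlgebraicIndependent ℚ α) (S : Set ι) :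
    ∃ K : Subfield ℝ, (∀ i, α i ^ 3 ∈ K) ∧ (∀ i, α i ∈ K ↔ i ∈ S) ∧
      ∀ d ∈ K, 0 < d → √d ∈ K := by
  obtain ⟨K, hK, hmax⟩ := zorn_le_nonempty₀
    {K : Subfield ℝ | baseField α S ≤ K ∧ ∀ i, i ∉ S → α i ∉ K} (by
      intro c hc hchain y hy
      refine ⟨sSup c, ⟨?_, ?_⟩, fun z hz => le_sSup hz⟩
      · exact (hc hy).1.trans (le_sSup hy)
      · intro i hi hmem
        rw [Subfield.mem_sSup_of_directedOn ⟨y, hy⟩ hchain.directedOn] at hmem
        obtain ⟨z, hz, hiz⟩ := hmem
        exact (hc hz).2 i hi hiz) (baseField α S) ⟨le_rfl, fun i hi => not_mem_baseField hα hi⟩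
  have hcube : ∀ i, α i ^ 3 ∈ K := fun i =>
    hK (Subfield.subset_closure (Or.inl ⟨i, rfl⟩))
  refine ⟨K, hcube, fun i => ⟨fun h => ?_, fun h => ?_⟩, ?_⟩
  · by_contra hi
    exact hmax.1.2 i hi h
  · exact hK (Subfield.subset_closure (Or.inr ⟨i, h, rfl⟩))
  · intro d hd hpos
    by_contra hs
    have hlt : K ≤ adjoinSqrt K d hd hpos hs := fun x hx => ⟨x, hx, 0, K.zero_mem, by simp⟩
    have hin : adjoinSqrt K d hd hpos hs ∈
        {K : Subfield ℝ | baseField α S ≤ K ∧ ∀ i, i ∉ S → α i ∉ K} := by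
      refine ⟨hK.trans hlt, fun i hi h => ?_⟩
      exact hmax.1.2 i hi (mem_of_cube_mem hd hpos hs h (hcube i))
    have := hmax.2 hin hlt
    exact hs (this ⟨0, K.zero_mem, 1, K.one_mem, by simp⟩)

/-! ## Cardinality of the transcendence basis -/

theorem continuum_le_of_basis {ι : Type} {v : ι → ℝ} (hv : IsTranscendenceBasis ℚ v) :
    𝔠 ≤ #ι := by
  have h1 : #ℝ ≤ max #(Algebra.adjoin ℚ (Set.range v)) ℵ₀ := by
    have := hv.isAlgebraic
    exact Algebra.IsAlgebraic.cardinalMk_le_max (Algebra.adjoin ℚ (Set.range v)) ℝ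
  have h2 : #(Algebra.adjoin ℚ (Set.range v)) = #(MvPolynomial ι ℚ) :=
    Cardinal.mk_congr hv.1.aevalEquiv.symm.toEquiv
  have h3 : #(MvPolynomial ι ℚ) ≤ max (max #ℚ #ι) ℵ₀ := MvPolynomial.cardinalMk_le_max
  rw [h2, Cardinal.mk_real] at h1
  by_contra hlt
  rw [not_le] at hlt
  have h4 : 𝔠 ≤ max (max (max #ℚ #ι) ℵ₀) ℵ₀ := h1.trans (max_le_max h3 le_rfl)
  have h5 : max (max (max #ℚ #ι) ℵ₀) ℵ₀ < 𝔠 := by
    refine max_lt (max_lt (max_lt ?_ hlt) aleph0_lt_continuum) aleph0_lt_continuum
    rw [Cardinal.mkRat]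
    exact aleph0_lt_continuum
  exact absurd h4 (not_le.2 h5)

/-! ## The main theorem -/

/-- The order topology of a subfield of the reals (for the inherited order) is the subspace
topology. -/
theorem orderTopology_subfield (K : Subfield ℝ) : OrderTopology K := by
  refine induced_orderTopology (fun x : K => (x : ℝ)) (fun {x y} => Iff.rfl) ?_
  intro x y h
  obtain ⟨q, hq1, hq2⟩ := exists_rat_btwn h
  exact ⟨(q : K), by simpa using hq1, by simpa using hq2⟩

theorem trace_borel (K : Subfield ℝ) (D : Set K)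
    (hD : @MeasurableSet K (@borel K (Preorder.topology K)) D) :
    ∃ B : Set ℝ, @MeasurableSet ℝ (borel ℝ) B ∧ ∀ x : K, x ∈ D ↔ (x : ℝ) ∈ B := by
  have h1 : (instTopologicalSpaceSubtype : TopologicalSpace K) = Preorder.topology K :=
    (orderTopology_subfield K).topology_eq_generate_intervals
  rw [← h1] at hD
  have h2 : @borel K instTopologicalSpaceSubtype = (borel ℝ).comap (fun x : K => (x : ℝ)) :=
    borel_comap
  rw [h2, MeasurableSpace.measurableSet_comap] at hD
  obtain ⟨B, hB, rfl⟩ := hD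
  exact ⟨B, hB, fun x => Iff.rfl⟩

theorem card_borel : #{B : Set ℝ // @MeasurableSet ℝ (borel ℝ) B} ≤ 𝔠 := by
  have h := borel_eq_generateFrom_Ioi ℝ
  rw [h]
  refine MeasurableSpace.cardinal_measurableSet_le_continuum ?_
  exact Cardinal.mk_range_le.trans Cardinal.mk_real.le

/-- The set of cubes of `K`. -/
def cubes (K : Subfield ℝ) : Set K := {x | ∃ y : K, y ^ 3 = x}

theorem exists_nonBorel : ∃ K : Subfield ℝ, (∀ d ∈ K, 0 < d → √d ∈ K) ∧
    ¬ @MeasurableSet K (@borel K (Preorder.topology K)) (cubes K) := by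
  obtain ⟨s, hs⟩ := exists_isTranscendenceBasis ℚ ℝ
  have hcard := continuum_le_of_basis hs
  set α : s → ℝ := fun i => (i : ℝ) with hα
  choose K hK1 hK2 hK3 using fun S : Set s => exists_field hs.1 S
  by_contra hcon
  push Not at hcon
  have hB : ∀ S : Set s, ∃ B : Set ℝ, @MeasurableSet ℝ (borel ℝ) B ∧
      ∀ x : K S, x ∈ cubes (K S) ↔ (x : ℝ) ∈ B := fun S => trace_borel (K S) _ (hcon (K S) (hK3 S))
  choose B hBm hB using hB
  have hinj : Function.Injective (fun S : Set s =>
      (⟨B S, hBm S⟩ : {B : Set ℝ // @MeasurableSet ℝ (borel ℝ) B})) := by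
    have key : ∀ S : Set s, ∀ i : s, i ∈ S ↔ (i : ℝ) ^ 3 ∈ B S := by
      intro S i
      rw [← hK2 S i, ← hB S ⟨(i : ℝ) ^ 3, hK1 S i⟩]
      constructor
      · intro hi
        exact ⟨⟨(i : ℝ), hi⟩, Subtype.ext rfl⟩
      · rintro ⟨y, hy⟩
        have h1 : (y : ℝ) ^ 3 = (i : ℝ) ^ 3 := congrArg Subtype.val hy
        have h2 : (y : ℝ) = (i : ℝ) := (Odd.strictMono_pow (by decide : Odd 3)).injective h1
        rw [← h2]
        exact y.2
    intro S S' h
    have h' : B S = B S' := congrArg Subtype.val h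
    ext i
    rw [key S i, key S' i, h']
  have h1 := Cardinal.mk_le_of_injective hinj
  rw [Cardinal.mk_set] at h1
  have h2 : (2 : Cardinal) ^ #s ≤ 𝔠 := h1.trans card_borel
  have h3 : #s < 2 ^ #s := Cardinal.cantor _
  exact absurd (h3.trans_le h2) (not_lt.2 hcard)

/-! ## Definability of the set of cubes -/

open FirstOrder FirstOrder.Language in
theorem definable_cubes (K : Subfield ℝ) :
    letI := FirstOrder.Ring.compatibleRingOfRing K
    (∅ : Set K).Definable₁ FirstOrder.Language.ring (cubes K) := by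
  let _ := FirstOrder.Ring.compatibleRingOfRing K
  rw [Set.Definable₁, Set.empty_definable_iff]
  refine ⟨Formula.iExs (Fin 1) (Term.equal
    (Term.var (Sum.inr 0) * Term.var (Sum.inr 0) * Term.var (Sum.inr 0) :
      FirstOrder.Language.ring.Term (Fin 1 ⊕ Fin 1)) (Term.var (Sum.inl 0))), ?_⟩
  ext x
  simp only [cubes, Set.mem_ofPred_eq, Formula.realize_iExs, Formula.realize_equal,
    FirstOrder.Ring.realize_mul, Term.realize_var, Sum.elim_inl, Sum.elim_inr]
  constructor
  · rintro ⟨y, hy⟩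
    exact ⟨fun _ => y, by rw [← hy]; ring⟩
  · rintro ⟨y, hy⟩
    exact ⟨y 0, by rw [← hy]; ring⟩

/-! ## Orderings -/

/-- Every field ordering of `K` is archimedean: for every linear order `o` on `K` that makes `K`
an ordered field and every `x` there is a natural number `n` with `x < n` in the sense of `o`. -/
def OnlyArchimedeanOrderings (K : Subfield ℝ) : Prop :=
  ∀ o : LinearOrder K, @IsStrictOrderedRing K _ o.toPartialOrder →
    ∀ x : K, ∃ n : ℕ, o.lt x (n : K)

theorem lt_of_sub_eq_mul_self {F : Type} [Field F] [LinearOrder F] [IsStrictOrderedRing F]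
    (a b c : F) (h : b - a = c * c) (hne : a ≠ b) : a < b := by
  have h0 : 0 ≤ b - a := by
    rw [h]
    exact mul_self_nonneg _
  exact lt_of_le_of_ne (sub_nonneg.1 h0) hne

theorem onlyArch {K : Subfield ℝ} (hK : ∀ d ∈ K, 0 < d → √d ∈ K) :
    OnlyArchimedeanOrderings K := by
  intro o ho x
  have hlt : ∀ a b : K, (a : ℝ) < b → o.lt a b := by
    intro a b hab
    have hd : ((b : ℝ) - a) ∈ K := K.sub_mem b.2 a.2
    have hpos : 0 < (b : ℝ) - a := sub_pos.2 hab
    have hsq : b - a = (⟨√((b : ℝ) - a), hK _ hd hpos⟩ : K) * ⟨√((b : ℝ) - a), hK _ hd hpos⟩ :=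
      Subtype.ext (Real.mul_self_sqrt hpos.le).symm
    have hne : a ≠ b := by
      rintro rfl
      exact lt_irrefl _ hab
    exact @lt_of_sub_eq_mul_self K _ o ho a b _ hsq hne
  obtain ⟨n, hn⟩ := exists_nat_gt (x : ℝ)
  exact ⟨n, hlt x n (by simpa using hn)⟩

/-- There is a subfield `K` of the reals such that every field ordering of `K` is archimedean, and
a subset `D` of `K`, definable without parameters in the language of rings, that is not Borel for
the order topology of `K`. -/
theorem result : ∃ K : Subfield ℝ, OnlyArchimedeanOrderings K ∧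
    ∃ D : Set K,
      (letI := FirstOrder.Ring.compatibleRingOfRing K
       (∅ : Set K).Definable₁ FirstOrder.Language.ring D) ∧
      ¬ @MeasurableSet K (@borel K (Preorder.topology K)) D := by
  obtain ⟨K, hK, hB⟩ := exists_nonBorel
  exact ⟨K, onlyArch hK, cubes K, definable_cubes K, hB⟩

end Pool.Agent.Results.MP_37207a_lc.NonBorelCubes
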